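import Pool.Agent.Y527.ZA.Stm
set_option autoImplicit false

/-! Project ZA of helper527 (MP_5347d0_lc): definable sets are invariant under the automorphisms
which fix a root of unity (helper41). -/

namespace Pool.Agent.Y41.ZA

open FirstOrder FirstOrder.Language Polynomial FirstOrder.Ring
open Pool.Agent.Helper967.ArithDef Pool.Agent.Helper967.ModelDef Pool.Agent.H358R3
open Pool.Agent.Y527.ZA

attribute [local instance] Df.strO

/-- a ring automorphism preserves the truth of formulas -/
theorem real_eqv (σ : Zab ≃+* Zab) {α : Type} (φ : Language.ring.Formula α) (v : α → Zab) :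
    φ.Realize (fun a => σ (v a)) ↔ φ.Realize v := by
  let i : CompatibleRing Zab := compatibleRingOfRing Zab
  let g : Language.ring.Equiv Zab Zab := languageEquivEquivRingEquiv.symm σ
  exact StrongHomClass.realize_formula g φ

/-- the truth of a formula depends only on the values of the free variables -/
theorem real_congr {α : Type} [DecidableEq α] (φ : Language.ring.Formula α) (v v' : α → Zab)
    (h : ∀ a ∈ φ.freeVarFinset, v a = v' a) : φ.Realize v ↔ φ.Realize v' := by
  have h1 : (φ.restrictFreeVar id).Realize (fun a : φ.freeVarFinset => v a) default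
      ↔ φ.Realize v :=
    BoundedFormula.realize_restrictFreeVar v fun _ => rfl
  have h2 : (φ.restrictFreeVar id).Realize (fun a : φ.freeVarFinset => v a) default
      ↔ φ.Realize v' :=
    BoundedFormula.realize_restrictFreeVar v' fun a => h a a.2
  exact h1.symm.trans h2

theorem zR_pow {n m k : ℕ} (hn : n ≠ 0) (hm : m ≠ 0) (h : m = n * k) :
    zR n hn = (zR m hm) ^ k := by
  apply inc_inj
  rw [map_pow, inc_zR, inc_zR]
  unfold zt
  rw [← Complex.exp_nat_mul]
  congr 1
  have hk : k ≠ 0 := by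
    rintro rfl
    exact hm (by rw [h, mul_zero])
  have h1 : (n : ℂ) ≠ 0 := Nat.cast_ne_zero.mpr hn
  have h2 : (k : ℂ) ≠ 0 := Nat.cast_ne_zero.mpr hk
  rw [h]
  push_cast
  field_simp

theorem fix_of_fix (b : Zab) : ∃ (n : ℕ) (hn : n ≠ 0), ∀ σ : Zab ≃+* Zab,
    σ (zR n hn) = zR n hn → σ b = b := by
  obtain ⟨n, hn, D, g, hD, h⟩ := rep b
  refine ⟨n, hn, fun σ hσ => ?_⟩
  have h1 : σ (aeval (zR n hn) g) = aeval (zR n hn) g := by
    have h2 : σ (aeval (zR n hn) g) = (σ : Zab →+* Zab).toIntAlgHom (aeval (zR n hn) g) := rfl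
    have h3 : (σ : Zab →+* Zab).toIntAlgHom (zR n hn) = zR n hn := hσ
    rw [h2, ← aeval_algHom_apply, h3]
  rw [← h, map_mul, map_natCast] at h1
  exact mul_left_cancel₀ (Nat.cast_ne_zero.mpr hD) h1

theorem h_FIX : s_FIX := by
  classical
  intro φ
  choose n hn hfix using fix_of_fix
  set S : Finset Zab := φ.freeVarFinset.toLeft with hS
  have hm : ∏ b ∈ S, n b ≠ 0 := Finset.prod_ne_zero_iff.mpr fun b _ => hn b
  refine ⟨∏ b ∈ S, n b, hm, fun σ hσ x => ?_⟩
  rw [← real_eqv σ φ (Sum.elim id (fun _ : Fin 1 => x))]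
  refine real_congr φ _ _ fun a ha => ?_
  cases a with
  | inl b =>
    have hb : b ∈ S := by
      rw [hS, Finset.mem_toLeft]
      exact ha
    obtain ⟨k, hk⟩ := Finset.dvd_prod_of_mem n hb
    show σ b = b
    refine hfix b σ ?_
    rw [zR_pow (hn b) hm hk, map_pow, hσ]
  | inr i => rfl

theorem h_FIX0 : s_FIX0 := by
  intro φ σ x
  exact (real_eqv σ φ (fun _ : Fin 1 => x)).symm

end Pool.Agent.Y41.ZA
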